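import Mathlib
import Pool.Agent.X66.IFS.G

/-!
# MP_6f21ce_an: super-exponential condensation without exact overlaps, not sub-conjugated to a
self-similar IFS

For every `ε > 0` there is an analytic iterated function system of five maps on `I = [0,1]`
which has super-exponential condensation, has no exact overlap, and for which no two distinct words
of equal length are simultaneously analytically conjugate to similarities.  Its attractor is not a
single point.
-/

set_option autoImplicit false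

namespace Pool.Agent.Results.MP_6f21ce_an.NotSubConjugated
open Filter Topology

/-- the neighbourhood `B_δ = {z : dist(z, [0,1]) < δ}` of `I = [0,1]` in the complex plane -/
def nbd (δ : ℝ) : Set ℂ := Metric.thickening δ ((fun x : ℝ => (x : ℂ)) '' Set.Icc 0 1)

/-- `f` is an analytic IFS (with parameter `ε`): at least two maps `f i : ℝ → ℝ`, each mapping
`I = [0,1]` to itself and being the restriction of a function `F` complex analytic on `B_{2ε}`
with `F (closure B_ε) ⊆ B_ε` and `0 < |F'| < 1` on `closure B_ε`. -/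
structure IsAnalyticIFS (ε : ℝ) {N : ℕ} (f : Fin N → ℝ → ℝ) : Prop where
  two_le : 2 ≤ N
  maps : ∀ i, ∀ x ∈ Set.Icc (0:ℝ) 1, f i x ∈ Set.Icc (0:ℝ) 1
  analytic : ∀ i, ∃ F : ℂ → ℂ, AnalyticOnNhd ℂ F (nbd (2 * ε)) ∧
    (∀ x : ℝ, (x : ℂ) ∈ nbd (2 * ε) → F x = f i x) ∧
    (∀ z ∈ closure (nbd ε), F z ∈ nbd ε) ∧
    (∀ z ∈ closure (nbd ε), 0 < ‖deriv F z‖ ∧ ‖deriv F z‖ < 1)

/-- the composition `f_{i₁} ∘ ⋯ ∘ f_{iₙ}` along the word `[i₁, …, iₙ]` -/
def comp {N : ℕ} (f : Fin N → ℝ → ℝ) : List (Fin N) → ℝ → ℝ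
  | [] => id
  | i :: w => f i ∘ comp f w

/-- exact overlap (on `I`): two distinct words with the same composition -/
def ExactOverlap {N : ℕ} (f : Fin N → ℝ → ℝ) : Prop :=
  ∃ u v : List (Fin N), u ≠ v ∧ ∀ x ∈ Set.Icc (0:ℝ) 1, comp f u x = comp f v x

/-- the exponential separation condition -/
def ESC {N : ℕ} (f : Fin N → ℝ → ℝ) : Prop :=
  ∃ c : ℝ, 0 < c ∧ ∃ᶠ n in atTop, ∀ u v : List (Fin N), u.length = n → v.length = n → u ≠ v →
    c ^ n ≤ sSup ((fun x => |comp f u x - comp f v x|) '' Set.Icc (0:ℝ) 1)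

/-- `f` is sub-conjugated to a self-similar IFS: for some distinct words `u, v` of the same length,
`f_u` and `f_v` are simultaneously conjugate on `I` to similarities by a map `g` which is analytic
and invertible (analytic on `I` with nowhere vanishing derivative) -/
def SubConjugated {N : ℕ} (f : Fin N → ℝ → ℝ) : Prop :=
  ∃ u v : List (Fin N), u.length = v.length ∧ u ≠ v ∧
    ∃ g : ℝ → ℝ, AnalyticOnNhd ℝ g (Set.Icc 0 1) ∧ (∀ x ∈ Set.Icc (0:ℝ) 1, deriv g x ≠ 0) ∧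
    ∃ l₁ l₂ t₁ t₂ : ℝ, l₁ ≠ 0 ∧ |l₁| < 1 ∧ l₂ ≠ 0 ∧ |l₂| < 1 ∧
      (∀ x ∈ Set.Icc (0:ℝ) 1, g (comp f u x) = l₁ * g x + t₁) ∧
      (∀ x ∈ Set.Icc (0:ℝ) 1, g (comp f v x) = l₂ * g x + t₂)

theorem comp_eq {N : ℕ} (f : Fin N → ℝ → ℝ) (w : List (Fin N)) :
    comp f w = Pool.Agent.X66.IFS.comp f w := by
  induction w with
  | nil => rfl
  | cons i w ih => rw [comp, Pool.Agent.X66.IFS.comp, ih]

theorem nbd_norm {δ : ℝ} {z : ℂ} (hz : z ∈ nbd δ) : ‖z‖ < 1 + δ := by
  rw [nbd, Metric.mem_thickening_iff] at hz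
  obtain ⟨w, ⟨x, hx, rfl⟩, hw⟩ := hz
  rw [dist_eq_norm] at hw
  have h1 : ‖z‖ ≤ ‖z - x‖ + ‖(x:ℂ)‖ := by
    have := norm_add_le (z - x) (x:ℂ); simpa using this
  have h2 : ‖(x:ℂ)‖ ≤ 1 := by
    rw [Complex.norm_real, Real.norm_of_nonneg hx.1]; exact hx.2
  simp only at hw
  linarith

theorem closure_nbd {δ : ℝ} (hδ : 0 ≤ δ) {z : ℂ} (hz : z ∈ closure (nbd δ)) :
    ∃ x ∈ Set.Icc (0:ℝ) 1, ‖z - x‖ ≤ δ := by
  have h1 := Metric.closure_thickening_subset_cthickening _ _ hz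
  have hc : IsCompact ((fun x : ℝ => (x : ℂ)) '' Set.Icc 0 1) :=
    isCompact_Icc.image Complex.continuous_ofReal
  rw [hc.cthickening_eq_biUnion_closedBall hδ] at h1
  simp only [Set.mem_iUnion] at h1
  obtain ⟨w, ⟨x, hx, rfl⟩, hw⟩ := h1
  rw [Metric.mem_closedBall, dist_eq_norm] at hw
  exact ⟨x, hx, hw⟩

/-- **The answer to the question is negative.** -/
theorem result : ∀ ε : ℝ, 0 < ε → ∃ f : Fin 5 → ℝ → ℝ,
    IsAnalyticIFS ε f ∧ ¬ ESC f ∧ ¬ ExactOverlap f ∧ ¬ SubConjugated f ∧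
    ¬ ∃ p ∈ Set.Icc (0:ℝ) 1, ∀ i, f i p = p := by
  intro ε hε
  open Pool.Agent.X66.IFS in
  set R : ℝ := 1 + 2 * ε with hRdef
  have hR : 1 ≤ R := by rw [hRdef]; linarith
  have hR1 : 1 < R := by rw [hRdef]; linarith
  set δ : ℝ := 1 / (64 * R) with hδdef
  have hδ : 0 < δ := by positivity
  have hδR : δ * R ≤ 1/64 := by
    rw [hδdef]; apply le_of_eq; field_simp
  set p := Pool.Agent.X66.IFS.PF δ R hδ hR hδR with hp
  have hpR : p.R = R := rfl
  obtain ⟨t, ht0, ht8, hHH⟩ := p.exists_t (Pool.Agent.X66.IFS.arith hδ hR hδR)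
  have ht : t ≤ 1/4 := by linarith
  have hf : ∀ i, ∀ x ∈ Set.Icc (0:ℝ) 1, (fun i => p.fr i t) i x ∈ Set.Icc (0:ℝ) 1 :=
    fun i x hx => p.fr_maps i ht0.le ht hx.1 hx.2
  have htn := Pool.Agent.X66.IFS.Par.nt ht0.le ht
  refine ⟨fun i => p.fr i t, ⟨by norm_num, hf, ?_⟩, ?_, ?_, ?_, ?_⟩
  · intro i
    refine ⟨p.φ i t, ?_, ?_, ?_, ?_⟩
    · apply DifferentiableOn.analyticOnNhd _ Metric.isOpen_thickening
      intro z hz
      have := nbd_norm hz
      exact (p.hasDerivAt_φ i htn (by rw [hpR, hRdef]; exact this.le)).differentiableAt.differentiableWithinAt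
    · intro x _
      exact p.φ_ofReal i t x
    · intro z hz
      obtain ⟨x, hx, hzx⟩ := closure_nbd hε.le hz
      have hxR : (x:ℂ) ∈ Metric.closedBall (0:ℂ) R := by
        rw [mem_closedBall_zero_iff, Complex.norm_real, Real.norm_of_nonneg hx.1]; linarith [hx.2]
      have hzR : z ∈ Metric.closedBall (0:ℂ) R := by
        rw [mem_closedBall_zero_iff]
        have h1 : ‖z‖ ≤ ‖z - x‖ + ‖(x:ℂ)‖ := by
          have := norm_add_le (z - x) (x:ℂ); simpa using this
        have h2 : ‖(x:ℂ)‖ ≤ 1 := by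
          rw [Complex.norm_real, Real.norm_of_nonneg hx.1]; exact hx.2
        rw [hRdef]; linarith
      have h3 := (convex_closedBall (0:ℂ) R).norm_image_sub_le_of_norm_hasDerivWithin_le
        (f := p.φ i t) (f' := p.ψ i t) (C := 1/2)
        (fun y hy => (p.hasDerivAt_φ i htn (mem_closedBall_zero_iff.1 hy)).hasDerivWithinAt)
        (fun y hy => p.ψ_upper i htn (mem_closedBall_zero_iff.1 hy)) hxR hzR
      rw [nbd, Metric.mem_thickening_iff]
      refine ⟨p.φ i t x, ⟨p.fr i t x, hf i x hx, (p.φ_ofReal i t x).symm⟩, ?_⟩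
      rw [dist_eq_norm]
      linarith
    · intro z hz
      obtain ⟨x, hx, hzx⟩ := closure_nbd hε.le hz
      have hzR : ‖z‖ ≤ p.R := by
        have h1 : ‖z‖ ≤ ‖z - x‖ + ‖(x:ℂ)‖ := by
          have := norm_add_le (z - x) (x:ℂ); simpa using this
        have h2 : ‖(x:ℂ)‖ ≤ 1 := by
          rw [Complex.norm_real, Real.norm_of_nonneg hx.1]; exact hx.2
        rw [hpR, hRdef]; linarith
      rw [(p.hasDerivAt_φ i htn hzR).deriv]
      exact ⟨by linarith [p.ψ_lower i htn hzR], by linarith [p.ψ_upper i htn hzR]⟩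
  · rintro ⟨c, hc, hfr⟩
    apply Pool.Agent.X66.IFS.not_ESC hδ hR hδR ht0.le ht
    refine ⟨c, hc, hfr.mono ?_⟩
    intro n hn u v hu hv huv
    have := hn u v hu hv huv
    rw [comp_eq, comp_eq] at this
    exact this
  · rintro ⟨u, v, huv, he⟩
    obtain ⟨s, hs⟩ := Pool.Agent.X66.IFS.words (0 : Fin 5) 1 (by decide) huv
    have he' : Set.EqOn (Pool.Agent.X66.IFS.comp (fun i => p.fr i t) u)
        (Pool.Agent.X66.IFS.comp (fun i => p.fr i t) v) (Set.Icc 0 1) := by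
      intro x hx
      have := he x hx
      rwa [comp_eq, comp_eq] at this
    have hE : Set.EqOn (Pool.Agent.X66.IFS.comp (fun i => p.fr i t) (u ++ s :: v))
        (Pool.Agent.X66.IFS.comp (fun i => p.fr i t) (v ++ s :: u)) (Set.Icc 0 1) := by
      intro x hx
      rw [Pool.Agent.X66.IFS.comp_append, Pool.Agent.X66.IFS.comp_append]
      simp only [Pool.Agent.X66.IFS.comp, Function.comp]
      have h1 := he' hx
      rw [h1]
      exact he' (hf s _ (Pool.Agent.X66.IFS.comp_maps hf v hx))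
    apply hHH _ _ (by simp; ring) hs
    exact p.HH_of_eqOn hR1 ht0.le ht (by simp) (by simp) hE
  · rintro ⟨u, v, hl, huv, g, hg, hg1, l₁, l₂, t₁, t₂, hl1, _, hl2, _, h1, h2⟩
    have hu : u ≠ [] := by
      rintro rfl
      exact huv (by simpa using hl.symm : v = []).symm
    have hv : v ≠ [] := by
      rintro rfl
      exact huv (by simpa using hl)
    apply hHH u v hl huv
    rw [comp_eq] at h1 h2
    rw [p.HH_eq hR1 ht0.le ht hg hg1 hu hl1 h1, p.HH_eq hR1 ht0.le ht hg hg1 hv hl2 h2]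
  · rintro ⟨q, hq, hfix⟩
    have h0 := hfix 0
    have h2 := hfix 2
    have e0 : p.φ 0 (t:ℂ) q = q / 4 := Pool.Agent.X66.IFS.φ0 hδ hR hδR t q
    rw [p.φ_ofReal] at e0
    have e0' : p.fr 0 t q = q / 4 := by exact_mod_cast e0
    simp only at h0 h2
    rw [e0'] at h0
    have hq0 : q = 0 := by linarith
    have e2 : p.φ 2 (t:ℂ) (0:ℝ) = t := by
      rw [Pool.Agent.X66.IFS.φ_small hδ hR hδR 2 (by decide) (by decide)]
      simp [Pool.Agent.X66.IFS.Par.inn, Pool.Agent.X66.IFS.ev]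
    rw [p.φ_ofReal] at e2
    have e2' : p.fr 2 t 0 = t := by exact_mod_cast e2
    rw [hq0, e2'] at h2
    linarith

end Pool.Agent.Results.MP_6f21ce_an.NotSubConjugated
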